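import Mathlib
import Pool.Agent.V11112.FS6

set_option autoImplicit false

open Filter Topology

/-!
# MP_f4cb44_an, Q1: mass distribution asymptotics and Minkowski measurability

For every `d ∈ (0,1)` and every non-increasing positive sequence of Minkowski dimension `d`, the
sequence is Minkowski measurable if and only if `N(ε) ε ^ d` has a limit in `(0,∞)` as `ε → 0+`,
where `N` is the mass distribution function.

Sequences are indexed by `ℕ = {0, 1, 2, …}`, so `l j` stands for the term with number `j + 1`.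
-/

namespace Pool.Agent.Results.MP_f4cb44_an.MassDistributionMeasurability

/-- Minkowski dimension `d`: `0 < liminf l_j j^(1/d)` and `limsup l_j j^(1/d) < ∞`. -/
def HasMinkowskiDimension (l : ℕ → ℝ) (d : ℝ) : Prop :=
  ∃ a b : ℝ, 0 < a ∧ ∀ᶠ j : ℕ in atTop,
    a ≤ l j * ((j : ℝ) + 1) ^ (1 / d) ∧ l j * ((j : ℝ) + 1) ^ (1 / d) ≤ b

/-- Minkowski measurability: `l_j j^(1/d)` converges to a positive real number. -/
def MinkowskiMeasurable (l : ℕ → ℝ) (d : ℝ) : Prop :=
  ∃ Λ : ℝ, 0 < Λ ∧ Tendsto (fun j : ℕ => l j * ((j : ℝ) + 1) ^ (1 / d)) atTop (𝓝 Λ)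

/-- The index set can be split into `N` pairwise disjoint sets, the sum of `l` over each of them
being at least `ε`. -/
def SplitsInto (l : ℕ → ℝ) (ε : ℝ) (N : ℕ) : Prop :=
  ∃ γ : Fin N → Set ℕ, (∀ i i', i ≠ i' → Disjoint (γ i) (γ i')) ∧ (⋃ i, γ i) = Set.univ ∧
    ∀ i, ε ≤ ∑' j, (γ i).indicator l j

/-- The mass distribution function: the largest `N` such that the index set splits into `N` sets
with sums at least `ε`. -/
noncomputable def massDistribution (l : ℕ → ℝ) (ε : ℝ) : ℕ := sSup {N | SplitsInto l ε N}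

open Pool.Agent.V11112.FS in
theorem result (d : ℝ) (hd0 : 0 < d) (hd1 : d < 1) (l : ℕ → ℝ) (hpos : ∀ j, 0 < l j)
    (hanti : Antitone l) (hdim : HasMinkowskiDimension l d) :
    (MinkowskiMeasurable l d ↔
      ∃ c : ℝ, 0 < c ∧
        Tendsto (fun ε : ℝ => (massDistribution l ε : ℝ) * ε ^ d) (𝓝[>] 0) (𝓝 c)) ∧
    (∀ Λ : ℝ, 0 < Λ → Tendsto (fun j : ℕ => l j * ((j : ℝ) + 1) ^ (1 / d)) atTop (𝓝 Λ) →
      Tendsto (fun ε : ℝ => (massDistribution l ε : ℝ) * ε ^ d) (𝓝[>] 0)
        (𝓝 (Λ ^ d / (1 - d)))) ∧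
    (Summable l ∧ ∀ ε : ℝ, 0 < ε → ε ≤ ∑' j, l j →
      IsGreatest {N | SplitsInto l ε N} (massDistribution l ε)) := by
  obtain ⟨a, b, ha, hab⟩ := hdim
  obtain ⟨b', J0, h⟩ := exists_bnd hd0 hd1 hpos hanti ha hab
  refine ⟨main h, fun Λ hΛ ht => main_value h hΛ ht, h.summable, fun ε hε hle => ?_⟩
  have hb := bddAbove_splits hpos h.summable hε
  have hne : {N | SplitsInto l ε N}.Nonempty := by
    refine ⟨1, fun _ => Set.univ, ?_, ?_, ?_⟩
    · intro i i' hne
      exact absurd (Subsingleton.elim i i') hne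
    · exact Set.iUnion_const _
    · intro i
      rwa [Set.indicator_univ]
  exact ⟨Nat.sSup_mem hne hb, fun N hN => le_csSup hb hN⟩

end Pool.Agent.Results.MP_f4cb44_an.MassDistributionMeasurability
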